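import Mathlib
import Pool.Agent.X184.Rel.H

/-!
# Lehmer's inequality over an arbitrary field for numbers with large relative traces

Let `F` be any field of complex numbers, for instance `F = K(Γ)` for a subgroup `Γ` of `ℂ*`. Let `α`
be an algebraic integer, not a root of unity, of degree `D ≥ 2` over `F`, such that no quotient of
two distinct conjugates of `α` over `F` is a root of unity. Let `tr_m` be the trace of `α ^ m` from
`F(α)` to `F`, that is the sum of the `m`-th powers of the conjugates of `α` over `F`; it is an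
algebraic integer. For an algebraic integer `T` let `N(T)` be the geometric mean of the absolute
values of the conjugates of `T` over `ℚ`, that is `|norm T| ^ (1 / deg T)`; so `N(T) ≥ 1` for `T ≠ 0`
and `N(a T) = a N(T)` for natural numbers `a`.

(1) If `m ≥ 1` and `N(tr_m) ^ 2 ≥ 6 D (1 + log D) + 3`, then `h(α) > 1 / (8 m D)`.

(2) Let `c_1, …, c_k` be natural numbers, not all zero, and `T = c_1 tr_1 + … + c_k tr_k`. If
`N(T) ^ 2 ≥ (c_1 ^ 2 + … + c_k ^ 2) (6 D (1 + log D + log k) + 3 k)`, then `h(α) > 1 / (8 k ^ 2 D)`.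

(3) If `F` contains the roots of unity and the greatest common divisor of the exponents of the
minimal polynomial of `α` over `F` is `1`, then no quotient of two distinct conjugates is a root of
unity.

The bounds do not depend on the field `F`, which is arbitrary. For example (1), with `m = 1`, applies
if the trace of `α` over `F` is not zero and divisible by a natural number `a` with
`a ^ 2 ≥ 6 D (1 + log D) + 3`. In (2) the condition on the size of `T` is, up to a logarithm, the
square root of the number of the conjugates of all the powers `α ^ m` with `c_m = 1`: there is square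
root cancellation between the conjugates and also between the different powers.

Method: the positive definite kernel `-log |1 - t x conj y|` at the reflected conjugates over `F` of
the numbers `α ^ m`, with the weights `c_m`, at all the embeddings of a number field containing them.
The differences `α_i ^ a - α_j ^ b` are algebraic integers and have norms at least `1`.
-/

set_option autoImplicit false

open Polynomial

namespace Pool.Agent.Results.MP_187c26_nt.LargeRelativeTraces

/-- The absolute logarithmic Weil height of an algebraic integer. -/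
noncomputable def height (α : ℂ) : ℝ :=
  Real.log ((minpoly ℤ α).map (Int.castRingHom ℂ)).mahlerMeasure / (minpoly ℤ α).natDegree

/-- The trace of `α ^ m` from `F(α)` to `F`: the sum of the `m`-th powers of the conjugates of `α`
over `F`. -/
noncomputable def relTrace (F : IntermediateField ℚ ℂ) (α : ℂ) (m : ℕ) : ℂ :=
  ∑ z : (minpoly F α).rootSet ℂ, (z : ℂ) ^ m

/-- The geometric mean of the absolute values of the conjugates over `ℚ` of an algebraic integer. -/
noncomputable def meanNorm (T : ℂ) : ℝ :=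
  |((minpoly ℤ T).coeff 0 : ℝ)| ^ (1 / ((minpoly ℤ T).natDegree : ℝ))

/-- No quotient of two distinct conjugates of `α` over `F` is a root of unity. -/
def Nondegenerate (F : IntermediateField ℚ ℂ) (α : ℂ) : Prop :=
  ∀ z ∈ (minpoly F α).rootSet ℂ, ∀ w ∈ (minpoly F α).rootSet ℂ, z ≠ w →
    ∀ m : ℕ, 0 < m → z ^ m ≠ w ^ m

lemma core (F : IntermediateField ℚ ℂ) (α : ℂ) (hα : IsIntegral ℤ α)
    (hroot : ∀ n : ℕ, 0 < n → α ^ n ≠ 1) (hnd : Nondegenerate F α)
    (hD : 2 ≤ (minpoly F α).natDegree) (k : ℕ) (hk : 1 ≤ k) (c : ℕ → ℕ)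
    (hc : ∃ m ∈ Finset.Icc 1 k, c m ≠ 0)
    (hbig : (∑ m ∈ Finset.Icc 1 k, (c m : ℝ) ^ 2) *
      (6 * (minpoly F α).natDegree * (1 + Real.log (minpoly F α).natDegree + Real.log k) +
        3 * k) ≤ meanNorm (∑ m ∈ Finset.Icc 1 k, (c m : ℂ) * relTrace F α m) ^ 2) :
    1 / (8 * (k:ℝ) ^ 2 * (minpoly F α).natDegree) < height α := by
  set T := ∑ m ∈ Finset.Icc 1 k, (c m : ℂ) * relTrace F α m with hT
  have hD0 : (0:ℝ) < (minpoly F α).natDegree := by exact_mod_cast (by omega : 0 < _)
  have hk0 : (0:ℝ) < k := by exact_mod_cast hk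
  have hlogD : 0 ≤ Real.log (minpoly F α).natDegree :=
    Real.log_nonneg (by exact_mod_cast (by omega : 1 ≤ (minpoly F α).natDegree))
  have hlogk : 0 ≤ Real.log k := Real.log_nonneg (by exact_mod_cast hk)
  have hc2 : 0 < ∑ m ∈ Finset.Icc 1 k, (c m : ℝ) ^ 2 := by
    obtain ⟨m, hm, hm0⟩ := hc
    apply Finset.sum_pos' (fun _ _ => sq_nonneg _) ⟨m, hm, _⟩
    have : (0:ℝ) < c m := by exact_mod_cast Nat.pos_of_ne_zero hm0
    positivity
  have hpos : 0 < (∑ m ∈ Finset.Icc 1 k, (c m : ℝ) ^ 2) *
      (6 * (minpoly F α).natDegree * (1 + Real.log (minpoly F α).natDegree + Real.log k) +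
        3 * k) := by positivity
  have hT0 : T ≠ 0 := by
    intro e
    rw [e] at hbig
    have h1 : meanNorm 0 = 0 := by
      unfold meanNorm
      have h2 : (minpoly ℤ (0:ℂ)).coeff 0 = 0 := by
        have h3 := coeff_zero_eq_aeval_zero' (A := ℂ) (minpoly ℤ (0:ℂ))
        rw [minpoly.aeval] at h3
        exact (algebraMap ℤ ℂ).injective_int (by rw [h3, map_zero])
      have h4 : (0:ℝ) < (minpoly ℤ (0:ℂ)).natDegree := by
        exact_mod_cast minpoly.natDegree_pos (isIntegral_zero (R := ℤ) (B := ℂ))
      rw [h2, Int.cast_zero, abs_zero, Real.zero_rpow (by positivity)]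
    rw [h1] at hbig
    norm_num at hbig
    linarith
  have hmn : 0 < meanNorm T ^ 2 := lt_of_lt_of_le hpos hbig
  have hmn0 : 0 < meanNorm T := by
    have h1 : 0 ≤ meanNorm T := Real.rpow_nonneg (abs_nonneg _) _
    rcases h1.eq_or_lt with e | e
    · rw [← e] at hmn; norm_num at hmn
    · exact e
  have habs : 0 < |((minpoly ℤ T).coeff 0 : ℝ)| := by
    rcases (abs_nonneg ((minpoly ℤ T).coeff 0 : ℝ)).eq_or_lt with e | e
    · exfalso
      have hTi : IsIntegral ℤ T := by
        rw [hT]
        refine IsIntegral.sum _ fun m _ => ?_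
        refine IsIntegral.mul ?_ (IsIntegral.sum _ fun z _ => ?_)
        · have := isIntegral_algebraMap (R := ℤ) (A := ℂ) (x := (c m : ℤ))
          simpa using this
        · exact (Pool.Agent.TH860.LP.root_integral hα z.2).pow m
      have h3 : ((minpoly ℤ T).coeff 0 : ℝ) = 0 := abs_eq_zero.mp e.symm
      have h4 : (minpoly ℤ T).coeff 0 = 0 := by exact_mod_cast h3
      have h5 : Associated (X : ℤ[X]) (minpoly ℤ T) :=
        irreducible_X.associated_of_dvd
          (minpoly.irreducible hTi) (X_dvd_iff.mpr h4)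
      have h6 : (X : ℤ[X]) = minpoly ℤ T :=
        eq_of_monic_of_associated monic_X (minpoly.monic hTi) h5
      have h7 := minpoly.aeval ℤ T
      rw [← h6, aeval_X] at h7
      exact hT0 h7
    · exact e
  have hlog := Real.log_le_log hpos hbig
  have e1 : Real.log (meanNorm T ^ 2) =
      2 * (Real.log |((minpoly ℤ T).coeff 0 : ℝ)| / (minpoly ℤ T).natDegree) := by
    rw [Real.log_pow]
    unfold meanNorm
    rw [Real.log_rpow habs]
    push_cast
    ring
  rw [e1] at hlog
  have h := Pool.Agent.X184.Rel.rel_trace F hα hroot hnd hD hk c T rfl hT0 hlog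
  have e2 : Pool.Agent.TH860.LP.hgt α = height α := rfl
  rw [e2] at h
  rw [div_lt_iff₀ (by positivity)]
  linarith

theorem result :
    (∀ (F : IntermediateField ℚ ℂ) (α : ℂ), IsIntegral ℤ α → (∀ n : ℕ, 0 < n → α ^ n ≠ 1) →
      Nondegenerate F α → ∀ D : ℕ, D = (minpoly F α).natDegree → 2 ≤ D →
      ∀ m : ℕ, 1 ≤ m → 6 * D * (1 + Real.log D) + 3 ≤ meanNorm (relTrace F α m) ^ 2 →
        1 / (8 * (m : ℝ) * D) < height α) ∧
    (∀ (F : IntermediateField ℚ ℂ) (α : ℂ), IsIntegral ℤ α → (∀ n : ℕ, 0 < n → α ^ n ≠ 1) →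
      Nondegenerate F α → ∀ D : ℕ, D = (minpoly F α).natDegree → 2 ≤ D →
      ∀ k : ℕ, 1 ≤ k → ∀ c : ℕ → ℕ, (∃ m ∈ Finset.Icc 1 k, c m ≠ 0) →
        (∑ m ∈ Finset.Icc 1 k, (c m : ℝ) ^ 2) * (6 * D * (1 + Real.log D + Real.log k) + 3 * k) ≤
          meanNorm (∑ m ∈ Finset.Icc 1 k, (c m : ℂ) * relTrace F α m) ^ 2 →
        1 / (8 * (k : ℝ) ^ 2 * D) < height α) ∧
    (∀ F : IntermediateField ℚ ℂ, (∀ ζ : ℂ, ∀ n : ℕ, 0 < n → ζ ^ n = 1 → ζ ∈ F) →
      ∀ α : ℂ, IsIntegral ℤ α → α ≠ 0 → (minpoly F α).support.gcd id = 1 →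
        Nondegenerate F α) := by
  refine ⟨?_, ?_, ?_⟩
  · intro F α hα hroot hnd D hD hD2 m hm hbig
    subst hD
    obtain ⟨hdeg, hset⟩ := Pool.Agent.X184.Rel.pow_conj F hα hnd hm
    have hsum := Pool.Agent.X184.Rel.sum_pow_conj F hα hnd hm
    have hnd' : Nondegenerate F (α ^ m) := by
      intro z hz w hw hne n hn h
      rw [hset] at hz hw
      obtain ⟨z', hz', rfl⟩ := hz
      obtain ⟨w', hw', rfl⟩ := hw
      dsimp only at h hne
      rw [← pow_mul, ← pow_mul] at h
      exact hnd z' hz' w' hw' (fun e => hne (by rw [e])) (m * n) (Nat.mul_pos hm hn) h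
    have h1 := core F (α ^ m) (hα.pow m) (fun n hn h => hroot (m * n) (Nat.mul_pos hm hn)
      (by rw [pow_mul]; exact h)) hnd' (by rw [hdeg]; exact hD2) 1 le_rfl (fun _ => 1)
      ⟨1, by simp, one_ne_zero⟩ (by
        rw [Finset.Icc_self, Finset.sum_singleton, Finset.sum_singleton, hdeg]
        have e : ((1 : ℕ) : ℂ) * relTrace F (α ^ m) 1 = relTrace F α m := by
          unfold relTrace
          simp only [pow_one]
          rw [Nat.cast_one, one_mul]
          exact hsum
        rw [e]
        simpa using hbig)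
    have e2 : height (α ^ m) = m * height α := Pool.Agent.X184.Rel.hgt_pow hα m
    rw [hdeg, e2] at h1
    have hm0 : (0:ℝ) < m := by exact_mod_cast hm
    have hD0 : (0:ℝ) < (minpoly F α).natDegree := by exact_mod_cast (by omega : 0 < _)
    rw [div_lt_iff₀ (by positivity)] at h1 ⊢
    push_cast at h1
    linarith
  · intro F α hα hroot hnd D hD hD2 k hk c hc hbig
    subst hD
    exact core F α hα hroot hnd hD2 k hk c hc hbig
  · intro F hμ α hα hα0 hg z hz w hw hne n hn
    have hαF : IsIntegral F α := hα.tower_top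
    exact Pool.Agent.X184.Rel.nondeg F hμ (minpoly.irreducible hαF) (minpoly.monic hαF)
      (minpoly.coeff_zero_ne_zero hαF hα0) (fun s hs => by
        have h1 : s ∣ (minpoly F α).support.gcd id := Finset.dvd_gcd hs
        rw [hg] at h1
        exact Nat.dvd_one.mp h1) hz hw hne n hn

end Pool.Agent.Results.MP_187c26_nt.LargeRelativeTraces
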