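import Mathlib
import Pool.Agent.X184.RD.D

/-!
# The relative Lehmer problem over `K(μ_∞)` and the size of the relative discriminant

Let `z` be an algebraic integer, `z ≠ 0`, not a root of unity, let `f` be its minimal polynomial over
the field `ℚ(μ_∞)` generated by all roots of unity, `n` the degree of `f` and `d` the discriminant
of `f`, a nonzero algebraic integer. Let `N(d) ≥ 1` be the geometric mean of the absolute values of
the conjugates of `d` over `ℚ` and

  `B(z) = log⁺ (n / N(d) ^ (1/n))`.

(1) There is an absolute constant `c > 0` with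

  `[K(μ_∞)(z) : K(μ_∞)] * h(z) ≥ (c / [K : ℚ]) / (1 + B(z)) ^ 6`

for all these `z` and all number fields `K ⊆ ℂ`.

(2) In particular the relative Lehmer inequality over `K(μ_∞)`, with a constant which only depends on
`C` and `[K : ℚ]`, holds for all the `z` with `N(d) ≥ (n / C) ^ n`.

By Hadamard's inequality `N(d)` is at most `n ^ n M ^ (2 n - 2)`, where `M` is the geometric mean of
the Mahler measures of the conjugates of `f`; so `B(z)` measures by how much the discriminants of
the conjugates of `f` fall short, per zero and in the mean, of the largest possible size. Since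
`N(d) ≥ 1` one has `B(z) ≤ log n`, so (1) contains a relative Dobrowolski bound with
`(1 + log n) ^ 6` (this much is weaker than the known bounds of this kind); the point is that `B(z)`
is often bounded when `n` is large. There is no condition on the position of the zeros or on the
size of the coefficients of `f`, quotients of conjugates may be roots of unity, and nothing depends
on the roots of unity needed to write down `f`.

In the terms of Rémond's question this is the case `G = 𝔾_m`, `Γ` = the group of roots of unity,
`V = {z}`: the obstruction index is `ω_{K(Γ)}(V) = [K(μ_∞)(z) : K(μ_∞)]` and the essential minimum is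
the height `h(z)`.

Method: the energy method for the relative problem of the library (`Pool/Agent/Y947/RL2`), with
constant contraction factors `1 - κ / (2 n)`: the self energy of the contracted zeros, over all the
conjugates of `f`, is at most `n log n - log N(d) + O(n (1 + log (1/κ)))` in the mean. The reductions
of the library (twists by roots of unity, descent of the conductor, `f(X) = g(X ^ e)`) are
compatible with `B`, the last one up to the Mahler measure.
-/

set_option autoImplicit false

open Polynomial

namespace Pool.Agent.Results.MP_187c26_nt.RelativeDiscriminant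

/-- the field `ℚ(μ_∞) ⊆ ℂ` generated by all roots of unity -/
noncomputable def QAb : IntermediateField ℚ ℂ :=
  IntermediateField.adjoin ℚ {z : ℂ | ∃ n : ℕ, 0 < n ∧ z ^ n = 1}

/-- the absolute logarithmic height of an algebraic integer `z`: the logarithm of the Mahler measure
of its minimal polynomial over `ℤ`, divided by the degree -/
noncomputable def height (z : ℂ) : ℝ :=
  Real.log ((minpoly ℤ z).map (Int.castRingHom ℂ)).mahlerMeasure / (minpoly ℤ z).natDegree

/-- the geometric mean of the absolute values of the conjugates over `ℚ` of an algebraic integer -/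
noncomputable def meanNorm (d : ℂ) : ℝ :=
  |((minpoly ℤ d).coeff 0 : ℝ)| ^ (1 / ((minpoly ℤ d).natDegree : ℝ))

/-- `n`, the degree of `z` over `ℚ(μ_∞)` -/
noncomputable def deg (z : ℂ) : ℕ := (minpoly QAb z).natDegree

/-- `N(d)` for the discriminant `d` of the minimal polynomial of `z` over `ℚ(μ_∞)` -/
noncomputable def discNorm (z : ℂ) : ℝ := meanNorm (((minpoly QAb z).discr : QAb) : ℂ)

theorem result : ∃ c : ℝ, 0 < c ∧ ∀ z : ℂ, IsIntegral ℤ z → z ≠ 0 →
    (∀ k : ℕ, 0 < k → z ^ k ≠ 1) →
    ∀ (K : IntermediateField ℚ ℂ) [FiniteDimensional ℚ K],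
      (c / Module.finrank ℚ K /
          (1 + Real.posLog (deg z / discNorm z ^ (1 / (deg z : ℝ)))) ^ 6 ≤
        (minpoly (K ⊔ QAb : IntermediateField ℚ ℂ) z).natDegree * height z) ∧
      ∀ C : ℝ, 1 ≤ C → (deg z / C) ^ deg z ≤ discNorm z →
        c / Module.finrank ℚ K / (1 + Real.log C) ^ 6 ≤
          (minpoly (K ⊔ QAb : IntermediateField ℚ ℂ) z).natDegree * height z := by
  obtain ⟨c, hc, h⟩ := Pool.Agent.X184.RD.algD
  refine ⟨c, hc, ?_⟩
  intro z hz h0 hroot K _
  obtain ⟨hn, hd, hmain⟩ := h z hz h0 hroot
  have hn0 : (0:ℝ) < deg z := by exact_mod_cast hn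
  have hlN : Real.log (discNorm z) =
      Pool.Agent.X184.RD.lN (((minpoly QAb z).discr : QAb) : ℂ) := by
    unfold discNorm meanNorm Pool.Agent.X184.RD.lN
    have hd' : 0 < |((minpoly ℤ (((minpoly QAb z).discr : QAb) : ℂ)).coeff 0 : ℝ)| := hd
    rw [Real.log_rpow hd']
    ring
  have hN0 : 0 < discNorm z := Real.rpow_pos_of_pos hd _
  have hBeq : Real.posLog (deg z / discNorm z ^ (1 / (deg z : ℝ))) =
      max 0 (Real.log (minpoly QAb z).natDegree -
        Pool.Agent.X184.RD.lN (((minpoly QAb z).discr : QAb) : ℂ) /
          (minpoly QAb z).natDegree) := by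
    rw [Real.posLog_apply, Real.log_div hn0.ne' (Real.rpow_pos_of_pos hN0 _).ne',
      Real.log_rpow hN0, hlN]
    unfold deg
    congr 2
    ring
  have h1 : c / Module.finrank ℚ K /
          (1 + Real.posLog (deg z / discNorm z ^ (1 / (deg z : ℝ)))) ^ 6 ≤
        (minpoly (K ⊔ QAb : IntermediateField ℚ ℂ) z).natDegree * height z := by
    rw [hBeq]
    exact hmain K
  refine ⟨h1, ?_⟩
  intro C hC hdC
  refine le_trans ?_ h1
  have hC0 : 0 < C := by linarith
  have hlC : 0 ≤ Real.log C := Real.log_nonneg hC
  have hB0 : 0 ≤ Real.posLog (deg z / discNorm z ^ (1 / (deg z : ℝ))) := Real.posLog_nonneg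
  have hB : Real.posLog (deg z / discNorm z ^ (1 / (deg z : ℝ))) ≤ Real.log C := by
    rw [Real.posLog_apply]
    apply max_le hlC
    rw [Real.log_div hn0.ne' (Real.rpow_pos_of_pos hN0 _).ne', Real.log_rpow hN0]
    have h2 := Real.log_le_log (by positivity) hdC
    rw [Real.log_pow, Real.log_div hn0.ne' hC0.ne'] at h2
    have h3 : 1 / (deg z : ℝ) * Real.log (discNorm z) ≥ Real.log (deg z) - Real.log C := by
      rw [ge_iff_le, one_div, ← div_eq_inv_mul, le_div_iff₀ hn0]
      linarith
    linarith
  have hK : (0:ℝ) < Module.finrank ℚ K := by exact_mod_cast Module.finrank_pos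
  apply div_le_div_of_nonneg_left (by positivity) (by positivity)
  exact pow_le_pow_left₀ (by linarith) (by linarith) 6

end Pool.Agent.Results.MP_187c26_nt.RelativeDiscriminant
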